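import Pool.Agent.Helper16.Sey3.DECBb

/-!
Packet SEY3-DECB, part 3: assembly
-/

set_option autoImplicit false

namespace Pool.Agent.Helper16.Sey3

open Pool.Agent.Helper63.Sey3 Finset

section

variable {V : Type} [Fintype V] {U : Type} [Fintype U]
variable {H : SimpleGraph V} {μ : V → V} {un : V → U} {H' : SimpleGraph U}
variable {Δ : ℕ} {α δ : ℝ} {Rp : Finset V} {Ty : V → Finset V}

open Classical in
/-- the neighbours in a pair -/
noncomputable def YY (H : SimpleGraph V) (μ : V → V) (v : V) : Finset V :=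
  (Nb H v).filter (fun x => μ x ≠ x)

theorem mem_YY {v x : V} : x ∈ YY H μ v ↔ H.Adj v x ∧ μ x ≠ x := by
  classical
  rw [← mem_Nb]
  exact mem_filter

open Classical in
/-- the adjacent pairs of neighbours -/
noncomputable def PP (H' : SimpleGraph U) (a : U) : Finset (U × U) :=
  (Nb H' a ×ˢ Nb H' a).filter (fun p => H'.Adj p.1 p.2)

theorem mem_PP {a : U} {p : U × U} : p ∈ PP H' a ↔
    (H'.Adj a p.1 ∧ H'.Adj a p.2) ∧ H'.Adj p.1 p.2 := by
  classical
  rw [← mem_Nb, ← mem_Nb, ← mem_product]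
  exact mem_filter

theorem PP_card_le (a : U) : (PP H' a).card ≤ (Nb H' a).card * (Nb H' a).card := by
  classical
  rw [← card_product]
  exact card_filter_le _ _

open Classical in
theorem card_prod_filter (A B : Finset U) (p : U → U → Prop) :
    ((A ×ˢ B).filter (fun q => p q.1 q.2)).card = ∑ a ∈ A, (B.filter (fun b => p a b)).card := by
  simp only [card_filter, sum_product]

open Classical in
theorem un_mem (hU : Un H μ un H') {v : V} (hv : μ v = v) {x : V} (hx : H.Adj v x) :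
    un x ∈ Nb H' (un v) := by
  rw [mem_Nb, hU.adj]
  refine ⟨fun h => ?_, Or.inl hx⟩
  rcases (hU.eq v x).1 h with h1 | h1
  · rw [h1] at hx
    exact H.loopless.irrefl _ hx
  · rw [h1, hv] at hx
    exact H.loopless.irrefl _ hx

open Classical in
/-- case (b) -/
theorem caseb (D : Dc H Δ α δ Rp Ty μ) (hU : Un H μ un H') (hd : ∀ v, (Nb H v).card ≤ Δ)
    {v : V} (hv : μ v = v) {β : ℝ} (hβ0 : 0 ≤ β)
    (hβ : ∀ w ∈ Rp, ((Nb H v ∩ Nb H w).card : ℝ) ≤ (1 - β) * Δ)
    (hv2 : (1 - β / 4) * Δ ≤ ((Nb H v).card : ℝ)) (hα : 40 * α ≤ β) {y : ℝ}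
    (hY : y * Δ ≤ ((YY H μ v).card : ℝ)) :
    ((PP H' (un v)).card : ℝ) ≤
      (Δ : ℝ) ^ 2 - (y / 2) * (β / 4) * (Δ : ℝ) ^ 2 := by
  set DU := Nb H' (un v) with hDU
  set Y := YY H μ v with hYd
  have hΔ0 : (0 : ℝ) ≤ Δ := Nat.cast_nonneg _
  have h1 : Y.image un ⊆ DU := by
    intro a ha
    obtain ⟨x, hx, rfl⟩ := mem_image.1 ha
    exact un_mem hU hv (mem_YY.1 hx).1
  have h2 : ∀ a ∈ Y.image un, (β / 4) * Δ ≤ ((DU.filter (fun b => ¬ H'.Adj a b)).card : ℝ) := by
    intro a ha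
    obtain ⟨x, hx, rfl⟩ := mem_image.1 ha
    obtain ⟨hx1, hx2⟩ := mem_YY.1 hx
    obtain ⟨w, hw, hxw⟩ := D.ty x hx2
    have h3 := good D hd hw hxw v
    set G := (Nb H v).filter (fun z => z ∉ Nb H x ∪ Nb H (μ x) ∧ μ z ∉ Nb H x ∪ Nb H (μ x))
      with hG
    have h4 : G.image un ⊆ DU.filter (fun b => ¬ H'.Adj (un x) b) := by
      intro b hb
      obtain ⟨z, hz, rfl⟩ := mem_image.1 hb
      obtain ⟨hz1, hz2, hz3⟩ := mem_filter.1 hz
      refine mem_filter.2 ⟨un_mem hU hv (mem_Nb.1 hz1), fun h5 => ?_⟩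
      rw [mem_union, mem_Nb, mem_Nb, not_or] at hz2 hz3
      rcases ((hU.adj x z).1 h5).2 with h | h | h | h
      · exact hz2.1 h
      · exact hz2.2 h
      · exact hz3.1 h
      · exact hz3.2 h
    have h5 := cnt2 hU G
    have h6 := card_le_card h4
    have h7 : (G.card : ℝ) ≤ 2 * ((DU.filter (fun b => ¬ H'.Adj (un x) b)).card : ℝ) := by
      have : G.card ≤ 2 * (DU.filter (fun b => ¬ H'.Adj (un x) b)).card := by omega
      exact_mod_cast this
    have h8 := hβ w hw
    have h9 : 10 * α * Δ ≤ (β / 4) * Δ := mul_le_mul_of_nonneg_right (by linarith) hΔ0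
    linarith
  have h3 : ((Y.image un).card : ℝ) * ((β / 4) * Δ) ≤
      (((DU ×ˢ DU).filter (fun p => ¬ H'.Adj p.1 p.2)).card : ℝ) := by
    have hcp : ((DU ×ˢ DU).filter (fun p => ¬ H'.Adj p.1 p.2)).card =
        ∑ a ∈ DU, (DU.filter (fun b => ¬ H'.Adj a b)).card := by
      simp only [card_filter, sum_product]
    rw [hcp]
    push_cast
    calc ((Y.image un).card : ℝ) * ((β / 4) * Δ) = ∑ a ∈ Y.image un, (β / 4) * (Δ : ℝ) := by
          rw [sum_const, nsmul_eq_mul]
      _ ≤ ∑ a ∈ Y.image un, ((DU.filter (fun b => ¬ H'.Adj a b)).card : ℝ) := sum_le_sum h2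
      _ ≤ ∑ a ∈ DU, ((DU.filter (fun b => ¬ H'.Adj a b)).card : ℝ) :=
          sum_le_sum_of_subset_of_nonneg h1 (fun _ _ _ => Nat.cast_nonneg _)
  have h4 := cnt2 hU Y
  have h5 : (Y.card : ℝ) ≤ 2 * ((Y.image un).card : ℝ) := by exact_mod_cast h4
  have h6 : (y / 2) * Δ ≤ ((Y.image un).card : ℝ) := by linarith
  have h7 : (y / 2) * Δ * ((β / 4) * Δ) ≤ ((Y.image un).card : ℝ) * ((β / 4) * Δ) :=
    mul_le_mul_of_nonneg_right h6 (by positivity)
  have h8 : (PP H' (un v)).card +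
      ((DU ×ˢ DU).filter (fun p => ¬ H'.Adj p.1 p.2)).card = DU.card * DU.card := by
    unfold PP
    rw [card_filter_add_card_filter_not, card_product]
  have h9 : DU.card * DU.card ≤ Δ * Δ :=
    Nat.mul_le_mul ((deg1 hU hd hv).trans (hd v)) ((deg1 hU hd hv).trans (hd v))
  have h10 : ((PP H' (un v)).card : ℝ) +
      (((DU ×ˢ DU).filter (fun p => ¬ H'.Adj p.1 p.2)).card : ℝ) ≤ (Δ : ℝ) * Δ := by
    rw [← h8] at h9
    exact_mod_cast h9
  nlinarith

open Classical in
/-- case (c) -/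
theorem casec (hU : Un H μ un H') (hd : ∀ v, (Nb H v).card ≤ Δ) {v : V} (hv : μ v = v) :
    (PP H' (un v)).card ≤
      Nat.card {p : V × V // H.Adj v p.1 ∧ H.Adj v p.2 ∧ H.Adj p.1 p.2} +
        2 * ((YY H μ v).card * Δ) := by
  set DU := Nb H' (un v) with hDU
  set Y := YY H μ v with hYd
  have hc : DU.card ≤ Δ := (deg1 hU hd hv).trans (hd v)
  have hY : (Y.image un).card ≤ Y.card := card_image_le
  have h0 : Nat.card {p : V × V // H.Adj v p.1 ∧ H.Adj v p.2 ∧ H.Adj p.1 p.2} =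
      ((univ : Finset (V × V)).filter
        (fun p => H.Adj v p.1 ∧ H.Adj v p.2 ∧ H.Adj p.1 p.2)).card := by
    rw [Nat.card_eq_fintype_card, Fintype.card_subtype]
  have h1 : PP H' (un v) ⊆
      (((univ : Finset (V × V)).filter
        (fun p => H.Adj v p.1 ∧ H.Adj v p.2 ∧ H.Adj p.1 p.2)).image (Prod.map un un)) ∪
      ((Y.image un ×ˢ DU) ∪ (DU ×ˢ Y.image un)) := by
    rintro ⟨a, b⟩ hp
    obtain ⟨⟨ha0, hb0⟩, hp2⟩ := mem_PP.1 hp
    have ha : a ∈ DU := mem_Nb.2 ha0
    have hb : b ∈ DU := mem_Nb.2 hb0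
    obtain ⟨x, hx, hxa⟩ := adj_image hU (mem_Nb.1 ha)
    obtain ⟨z, hz, hzb⟩ := adj_image hU (mem_Nb.1 hb)
    rw [hv, or_self] at hx hz
    by_cases h2 : μ x = x
    · by_cases h3 : μ z = z
      · refine mem_union_left _ (mem_image.2 ⟨(x, z), ?_, by simp [hxa, hzb]⟩)
        simp only [mem_filter, mem_univ, true_and]
        refine ⟨hx, hz, ?_⟩
        have h4 : H'.Adj (un x) (un z) := by rw [hxa, hzb]; exact hp2
        have h5 := ((hU.adj x z).1 h4).2
        rw [h2, h3] at h5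
        tauto
      · refine mem_union_right _ (mem_union_right _ (mem_product.2 ⟨ha, ?_⟩))
        exact mem_image.2 ⟨z, mem_YY.2 ⟨hz, h3⟩, hzb⟩
    · refine mem_union_right _ (mem_union_left _ (mem_product.2 ⟨?_, hb⟩))
      exact mem_image.2 ⟨x, mem_YY.2 ⟨hx, h2⟩, hxa⟩
  rw [h0]
  refine (card_le_card h1).trans ((card_union_le _ _).trans ?_)
  refine Nat.add_le_add card_image_le ((card_union_le _ _).trans ?_)
  rw [card_product, card_product]
  have h2 : (Y.image un).card * DU.card ≤ Y.card * Δ := Nat.mul_le_mul hY hc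
  have h3 : DU.card * (Y.image un).card ≤ Y.card * Δ := by rw [mul_comm]; exact h2
  omega

end

/-- the setoid of the units -/
def us {V : Type} (μ : V → V) (h : ∀ x, μ (μ x) = x) : Setoid V where
  r x y := y = x ∨ y = μ x
  iseqv := by
    refine ⟨fun x => Or.inl rfl, ?_, ?_⟩
    · rintro x y (h1 | h1)
      · exact Or.inl h1.symm
      · exact Or.inr (by rw [h1, h])
    · rintro x y z (h1 | h1) (h2 | h2)
      · exact Or.inl (h2.trans h1)
      · exact Or.inr (by rw [h2, h1])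
      · exact Or.inr (by rw [h2, h1])
      · exact Or.inl (by rw [h2, h1, h])

open Classical in
theorem goalDEC (hA : GoalDECA) : GoalDEC := by
  intro δ hδ hδ1
  set β := δ / 16 with hβ
  set α := β / 64 with hα
  have hβ0 : 0 < β := by positivity
  have hα0 : 0 < α := by positivity
  have hβ1 : β ≤ 1 := by rw [hβ]; linarith
  have hα1 : α ≤ 1 := by rw [hα]; linarith
  have hα2 : α ^ 2 ≤ 1 := by nlinarith
  have hp0 : 0 < α ^ 2 * β := by positivity
  have hp1 : α ^ 2 * β ≤ β := by nlinarith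
  have hp2 : α ^ 2 * β ≤ α ^ 2 := by nlinarith [sq_nonneg α]
  refine ⟨α ^ 2 * β / 64, by positivity, by linarith, ?_⟩
  intro V _ H Δ hd0 hcl
  have hd : ∀ v, (Nb H v).card ≤ Δ := by
    intro v
    have := hd0 v
    rw [ncard] at this
    exact this
  rcases Nat.eq_zero_or_pos Δ with h0 | hΔ
  · subst h0
    have hno : ∀ x y, ¬ H.Adj x y := by
      intro x y hxy
      have h1 := hd x
      have h2 : 0 < (Nb H x).card := card_pos.2 ⟨y, mem_Nb.2 hxy⟩
      omega
    refine ⟨V, inferInstance, id, H, fun x y h => h, ?_, hd0, ?_⟩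
    · intro a
      have : Nat.card {x // id x = a} = 1 := by
        simp
      omega
    · intro a
      have : IsEmpty {p : V × V // H.Adj a p.1 ∧ H.Adj a p.2 ∧ H.Adj p.1 p.2} :=
        ⟨fun p => hno _ _ p.2.1⟩
      simp
  have hΔ' : (0 : ℝ) < Δ := by exact_mod_cast hΔ
  obtain ⟨Rp, Ty, μ, D, hdn⟩ := exists_Dc hA H hΔ hα0 (by rw [hα, hβ]; linarith) hδ1 hd hcl
  let s : Setoid V := us μ D.inv
  let U := Quotient s
  let un : V → U := Quotient.mk s
  have hun : ∀ x y, un x = un y ↔ y = x ∨ y = μ x := fun x y => Quotient.eq (r := s)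
  letI : Fintype U := Fintype.ofFinite U
  let H' : SimpleGraph U :=
    { Adj := fun a b => a ≠ b ∧ ∃ x y, un x = a ∧ un y = b ∧ H.Adj x y
      symm := by
        refine ⟨?_⟩
        rintro a b ⟨h1, x, y, h2, h3, h4⟩
        exact ⟨h1.symm, y, x, h3, h2, h4.symm⟩
      loopless := ⟨fun a h => h.1 rfl⟩ }
  have hU : Un H μ un H' := by
    refine ⟨Quotient.exists_rep, hun, ?_⟩
    intro x y
    constructor
    · rintro ⟨h1, x', y', h2, h3, h4⟩
      refine ⟨h1, ?_⟩
      rcases (hun x x').1 h2.symm with h5 | h5 <;> rcases (hun y y').1 h3.symm with h6 | h6 <;>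
        rw [h5, h6] at h4 <;> tauto
    · rintro ⟨h1, h2⟩
      refine ⟨h1, ?_⟩
      have e : ∀ z, un (μ z) = un z := fun z => ((hun z (μ z)).2 (Or.inr rfl)).symm
      rcases h2 with h2 | h2 | h2 | h2
      · exact ⟨x, y, rfl, rfl, h2⟩
      · exact ⟨μ x, y, e x, rfl, h2⟩
      · exact ⟨x, μ y, rfl, e y, h2⟩
      · exact ⟨μ x, μ y, e x, e y, h2⟩
  have hdeg : ∀ a, (Nb H' a).card ≤ Δ := by
    intro a
    obtain ⟨x, rfl⟩ := hU.sur a
    by_cases hx : μ x = x
    · exact (deg1 hU hd hx).trans (hd x)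
    · have h1 := deg2 D hU hd hx
      have h2 : (1 + 5 * α - δ / 4) * (Δ : ℝ) ≤ 1 * Δ :=
        mul_le_mul_of_nonneg_right (by rw [hα, hβ]; linarith) hΔ'.le
      have h3 : ((Nb H' (un x)).card : ℝ) ≤ Δ := by linarith
      exact_mod_cast h3
  refine ⟨U, inferInstance, un, H', ?_, ?_, ?_, ?_⟩
  · intro x y hxy
    rw [hU.adj]
    refine ⟨fun h => ?_, Or.inl hxy⟩
    rcases (hun x y).1 h with h1 | h1
    · rw [h1] at hxy
      exact H.loopless.irrefl _ hxy
    · rw [h1] at hxy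
      exact D.nad x hxy
  · intro a
    obtain ⟨x, rfl⟩ := hU.sur a
    have h1 : Nat.card {y // un y = un x} = (({x, μ x} : Finset V)).card := by
      rw [ncard]
      congr 1
      ext y
      simp only [mem_filter, mem_univ, true_and, mem_insert, mem_singleton]
      rw [← hun x y]
      exact eq_comm
    rw [h1]
    exact ⟨card_pos.2 ⟨x, mem_insert_self _ _⟩, card_le_two⟩
  · intro a
    rw [ncard]
    exact hdeg a
  · intro a
    obtain ⟨v, rfl⟩ := hU.sur a
    have hE : Nat.card {p : U × U // H'.Adj (un v) p.1 ∧ H'.Adj (un v) p.2 ∧ H'.Adj p.1 p.2} =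
        (PP H' (un v)).card := by
      rw [Nat.card_eq_fintype_card, Fintype.card_subtype]
      congr 1
      ext p
      rw [mem_PP]
      simp only [mem_filter, mem_univ, true_and]
      tauto
    rw [hE]
    have hsq : (0 : ℝ) ≤ (Δ : ℝ) ^ 2 := by positivity
    have hsmall : ((Nb H' (un v)).card : ℝ) ≤ (1 - β / 4) * Δ →
        ((PP H' (un v)).card : ℝ) ≤ (1 - α ^ 2 * β / 64) * (Δ : ℝ) ^ 2 := by
      intro h1
      have h2 : (PP H' (un v)).card ≤ (Nb H' (un v)).card * (Nb H' (un v)).card :=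
        PP_card_le _
      have h3 : ((PP H' (un v)).card : ℝ) ≤
          ((Nb H' (un v)).card : ℝ) * (Nb H' (un v)).card := by exact_mod_cast h2
      have h4 : ((Nb H' (un v)).card : ℝ) ≤ Δ := by exact_mod_cast hdeg (un v)
      have h5 : ((Nb H' (un v)).card : ℝ) * (Nb H' (un v)).card ≤ ((1 - β / 4) * Δ) * Δ :=
        mul_le_mul h1 h4 (Nat.cast_nonneg _) (by
          have : 0 ≤ 1 - β / 4 := by linarith
          positivity)
      have h6 : (1 - β / 4) * (Δ : ℝ) ^ 2 ≤ (1 - α ^ 2 * β / 64) * (Δ : ℝ) ^ 2 :=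
        mul_le_mul_of_nonneg_right (by linarith) hsq
      nlinarith
    by_cases hv : μ v = v
    · by_cases hB1 : ∃ w ∈ Rp, (1 - β) * (Δ : ℝ) ≤ ((Nb H v ∩ Nb H w).card : ℝ)
      · obtain ⟨w, hw, h1⟩ := hB1
        apply hsmall
        have h2 := degB1 D hU hd hv hw h1
        have h3 : (1 - δ / 4 + β) * (Δ : ℝ) ≤ (1 - β / 4) * Δ :=
          mul_le_mul_of_nonneg_right (by rw [hβ]; linarith) hΔ'.le
        linarith
      · push Not at hB1
        by_cases hB2 : ((Nb H v).card : ℝ) ≤ (1 - β / 4) * Δ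
        · apply hsmall
          have h1 : ((Nb H' (un v)).card : ℝ) ≤ (Nb H v).card := by
            exact_mod_cast deg1 hU hd hv
          linarith
        · push Not at hB2
          have hnd : ¬ Dn H Δ α v := by
            intro h
            obtain ⟨w, hw, h1⟩ := hdn v h
            have h2 := hB1 w hw
            have h3 : (1 - β) * (Δ : ℝ) ≤ (1 - α ^ 2 - 3 * α) * Δ :=
              mul_le_mul_of_nonneg_right (by
                have h4 : α ^ 2 ≤ α := by nlinarith
                have h5 : 64 * α = β := by rw [hα]; ring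
                linarith) hΔ'.le
            linarith
          unfold Dn at hnd
          push Not at hnd
          by_cases hY : (α ^ 2 / 8) * (Δ : ℝ) ≤ ((YY H μ v).card : ℝ)
          · have h1 := caseb D hU hd hv hβ0.le (fun w hw => (hB1 w hw).le) hB2.le
              (by rw [hα]; linarith) hY
            have e : (Δ : ℝ) ^ 2 - (α ^ 2 / 8 / 2) * (β / 4) * (Δ : ℝ) ^ 2 =
                (1 - α ^ 2 * β / 64) * (Δ : ℝ) ^ 2 := by ring
            rwa [e] at h1
          · push Not at hY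
            have h1 := casec hU hd hv
            have h2 : ((PP H' (un v)).card : ℝ) ≤
                (Nat.card {p : V × V // H.Adj v p.1 ∧ H.Adj v p.2 ∧ H.Adj p.1 p.2} : ℝ) +
                2 * (((YY H μ v).card : ℝ) * Δ) := by exact_mod_cast h1
            have h3 : ((YY H μ v).card : ℝ) * Δ ≤
                (α ^ 2 / 8) * Δ * Δ := mul_le_mul_of_nonneg_right hY.le hΔ'.le
            have h4 : (1 - 3 / 4 * α ^ 2) * (Δ : ℝ) ^ 2 ≤ (1 - α ^ 2 * β / 64) * (Δ : ℝ) ^ 2 :=
              mul_le_mul_of_nonneg_right (by nlinarith) hsq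
            nlinarith
    · apply hsmall
      have h1 := deg2 D hU hd hv
      have h2 : (1 + 5 * α - δ / 4) * (Δ : ℝ) ≤ (1 - β / 4) * Δ :=
        mul_le_mul_of_nonneg_right (by rw [hα, hβ]; linarith) hΔ'.le
      linarith

end Pool.Agent.Helper16.Sey3
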