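import Pool.Agent.Helper63.Sey3.Goals

/-!
Packet SEY3-DECB: the units
-/

set_option autoImplicit false

namespace Pool.Agent.Helper16.Sey3

open Pool.Agent.Helper63.Sey3 Finset

section

variable {V : Type} [Fintype V]

open Classical in
/-- the neighbours as a finset -/
noncomputable def Nb (H : SimpleGraph V) (v : V) : Finset V := univ.filter (H.Adj v)

theorem mem_Nb {H : SimpleGraph V} {v x : V} : x ∈ Nb H v ↔ H.Adj v x := by
  classical
  simp [Nb]

open Classical in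
theorem ncard (p : V → Prop) : Nat.card {x // p x} = (univ.filter p).card := by
  rw [Nat.card_eq_fintype_card, Fintype.card_subtype]

open Classical in
/-- the family of pairs -/
structure Dc (H : SimpleGraph V) (Δ : ℕ) (α δ : ℝ) (Rp : Finset V) (Ty : V → Finset V)
    (μ : V → V) : Prop where
  adj : ∀ v ∈ Rp, ∀ x ∈ Ty v, H.Adj v x
  out : ∀ v ∈ Rp, ((Nb H v \ Ty v).card : ℝ) ≤ α * Δ
  sub1 : ∀ v ∈ Rp, ∀ x ∈ Ty v, ((Nb H v \ Nb H x).card : ℝ) ≤ α * Δ
  sub2 : ∀ v ∈ Rp, ∀ x ∈ Ty v, ((Nb H x \ Nb H v).card : ℝ) ≤ 2 * α * Δ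
  inv : ∀ x, μ (μ x) = x
  ty : ∀ x, μ x ≠ x → ∃ v ∈ Rp, x ∈ Ty v
  st : ∀ v ∈ Rp, ∀ x ∈ Ty v, μ x ∈ Ty v
  nad : ∀ x, ¬ H.Adj x (μ x)
  many : ∀ v ∈ Rp, (δ / 2) * Δ ≤ (((Ty v).filter (fun x => μ x ≠ x)).card : ℝ)
  dis : ∀ v ∈ Rp, ∀ w ∈ Rp, v ≠ w → Disjoint (Ty v) (Ty w)

/-- a dense vertex -/
def Dn (H : SimpleGraph V) (Δ : ℕ) (α : ℝ) (v : V) : Prop :=
  (1 - α ^ 2) * (Δ : ℝ) ^ 2 ≤
    (Nat.card {p : V × V // H.Adj v p.1 ∧ H.Adj v p.2 ∧ H.Adj p.1 p.2} : ℝ)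

open Classical in
theorem Dn.le {H : SimpleGraph V} {Δ : ℕ} {α : ℝ} {v : V} (hΔ : 0 < Δ)
    (hd : ∀ v, (Nb H v).card ≤ Δ) (h : Dn H Δ α v) : (1 - α ^ 2) * (Δ : ℝ) ≤ (Nb H v).card := by
  unfold Dn at h
  have h1 : Nat.card {p : V × V // H.Adj v p.1 ∧ H.Adj v p.2 ∧ H.Adj p.1 p.2} ≤
      (Nb H v ×ˢ Nb H v).card := by
    rw [ncard]
    apply card_le_card
    intro p hp
    simp only [mem_filter, mem_univ, true_and] at hp
    rw [mem_product, mem_Nb, mem_Nb]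
    exact ⟨hp.1, hp.2.1⟩
  rw [card_product] at h1
  have h2 : Nat.card {p : V × V // H.Adj v p.1 ∧ H.Adj v p.2 ∧ H.Adj p.1 p.2} ≤
      (Nb H v).card * Δ := h1.trans (Nat.mul_le_mul_left _ (hd v))
  have h3 : (Nat.card {p : V × V // H.Adj v p.1 ∧ H.Adj v p.2 ∧ H.Adj p.1 p.2} : ℝ) ≤
      (Nb H v).card * Δ := by exact_mod_cast h2
  have h4 : (0 : ℝ) < Δ := by exact_mod_cast hΔ
  nlinarith

open Classical in
theorem exists_Dc (hA : GoalDECA) {δ α : ℝ} (H : SimpleGraph V) {Δ : ℕ} (hΔ : 0 < Δ)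
    (hα : 0 < α) (hαδ : 4 * α ≤ δ) (hδ : δ ≤ 1) (hd : ∀ v, (Nb H v).card ≤ Δ)
    (hcl : ∀ T : Finset V, (∀ x ∈ T, ∀ y ∈ T, x ≠ y → H.Adj x y) → (T.card : ℝ) ≤ (1 - δ) * Δ) :
    ∃ (Rp : Finset V) (Ty : V → Finset V) (μ : V → V), Dc H Δ α δ Rp Ty μ ∧
      ∀ v, Dn H Δ α v → ∃ w ∈ Rp, (1 - α ^ 2 - 3 * α) * (Δ : ℝ) ≤ ((Nb H v ∩ Nb H w).card : ℝ) := by
  have hΔ' : (0 : ℝ) < Δ := by exact_mod_cast hΔ
  have hd' : ∀ v, Nat.card {u // H.Adj v u} ≤ Δ := by
    intro v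
    rw [ncard]
    exact hd v
  have key : ∀ v, ∃ (Ty : Finset V) (μ : V → V), Dn H Δ α v → (∀ x ∈ Ty, H.Adj v x) ∧
      (((Nb H v \ Ty).card : ℝ) ≤ α * Δ) ∧
      (∀ x ∈ Ty, ((Nb H v \ Nb H x).card : ℝ) ≤ α * Δ ∧
        ((Nb H x \ Nb H v).card : ℝ) ≤ 2 * α * Δ) ∧
      (∀ x, μ (μ x) = x) ∧ (∀ x, x ∉ Ty → μ x = x) ∧ (∀ x ∈ Ty, μ x ∈ Ty) ∧
      (∀ x, ¬ H.Adj x (μ x)) ∧ ((δ / 2) * Δ ≤ ((Ty.filter (fun x => μ x ≠ x)).card : ℝ)) := by
    intro v
    by_cases hv : Dn H Δ α v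
    · obtain ⟨Ty, μ, h1, h2, h3, h4, h5, h6, h7, h8⟩ := hA δ α V H Δ hα hαδ hδ hd' hcl v hv
      refine ⟨Ty.toFinset, μ, fun _ => ⟨?_, ?_, ?_, h4, ?_, ?_, h7, ?_⟩⟩
      · intro x hx
        exact h1 x (by simpa using hx)
      · rw [ncard] at h2
        convert h2 using 3
        ext x
        simp [mem_Nb]
      · intro x hx
        obtain ⟨h9, h10⟩ := h3 x (by simpa using hx)
        rw [ncard] at h9 h10
        constructor
        · convert h9 using 3
          ext y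
          simp [mem_Nb]
        · convert h10 using 3
          ext y
          simp [mem_Nb]
      · intro x hx
        exact h5 x (by simpa using hx)
      · intro x hx
        have := h6 x (by simpa using hx)
        simpa using this
      · rw [ncard] at h8
        convert h8 using 3
        ext y
        simp only [mem_filter, Set.mem_toFinset, mem_univ, true_and]
        constructor
        · exact fun h => h.2
        · intro h
          refine ⟨?_, h⟩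
          by_contra hy
          exact h (h5 y hy)
    · exact ⟨∅, id, fun h => absurd h hv⟩
  choose Ty μ0 hT using key
  -- a maximal family
  obtain ⟨Rp, hRp, hmax⟩ := Finset.exists_max_image
    ((univ : Finset (Finset V)).filter (fun R => (∀ v ∈ R, Dn H Δ α v) ∧
      ∀ v ∈ R, ∀ w ∈ R, v ≠ w → Disjoint (Ty v) (Ty w))) Finset.card
    ⟨∅, by simp⟩
  rw [mem_filter] at hRp
  obtain ⟨-, hRd, hRdis⟩ := hRp
  have hmeet : ∀ v, Dn H Δ α v → ∃ w ∈ Rp, ∃ x, x ∈ Ty v ∧ x ∈ Ty w := by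
    intro v hv
    by_contra hcon
    push Not at hcon
    have h1 := hT v hv
    have hne : (Ty v).Nonempty := by
      rw [nonempty_iff_ne_empty]
      intro he
      have h2 := h1.2.1
      rw [he, sdiff_empty] at h2
      have h3 := hv.le hΔ hd
      have h4 : 1 - α ^ 2 ≤ α := by
        have := h3.trans h2
        exact le_of_mul_le_mul_right this hΔ'
      nlinarith
    obtain ⟨x0, hx0⟩ := hne
    have hvR : v ∉ Rp := fun h => hcon v h x0 hx0 hx0
    have hdj : ∀ w ∈ Rp, Disjoint (Ty v) (Ty w) := by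
      intro w hw
      rw [disjoint_left]
      exact fun x hx hx' => hcon w hw x hx hx'
    have h5 := hmax (insert v Rp) (by
      rw [mem_filter]
      refine ⟨mem_univ _, ?_, ?_⟩
      · intro w hw
        rcases mem_insert.1 hw with rfl | hw
        · exact hv
        · exact hRd w hw
      · intro a ha b hb hab
        rcases mem_insert.1 ha with ha1 | ha1
        · rcases mem_insert.1 hb with hb1 | hb1
          · exact absurd (ha1.trans hb1.symm) hab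
          · rw [ha1]
            exact hdj b hb1
        · rcases mem_insert.1 hb with hb1 | hb1
          · rw [hb1]
            exact (hdj a ha1).symm
          · exact hRdis a ha1 b hb1 hab)
    rw [card_insert_of_notMem hvR] at h5
    omega
  let μ : V → V := fun x => if h : ∃ v ∈ Rp, x ∈ Ty v then μ0 h.choose x else x
  have hμ1 : ∀ v ∈ Rp, ∀ x ∈ Ty v, μ x = μ0 v x := by
    intro v hv x hx
    have h : ∃ v ∈ Rp, x ∈ Ty v := ⟨v, hv, hx⟩
    have h1 : μ x = μ0 h.choose x := dif_pos h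
    have h2 : h.choose = v := by
      by_contra hne
      exact disjoint_left.1 (hRdis _ h.choose_spec.1 v hv hne) h.choose_spec.2 hx
    rw [h1, h2]
  have hμ2 : ∀ x, (¬ ∃ v ∈ Rp, x ∈ Ty v) → μ x = x := fun x h => dif_neg h
  refine ⟨Rp, Ty, μ, ⟨?_, ?_, ?_, ?_, ?_, ?_, ?_, ?_, ?_, hRdis⟩, ?_⟩
  · intro v hv
    exact (hT v (hRd v hv)).1
  · intro v hv
    exact (hT v (hRd v hv)).2.1
  · intro v hv x hx
    exact ((hT v (hRd v hv)).2.2.1 x hx).1
  · intro v hv x hx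
    exact ((hT v (hRd v hv)).2.2.1 x hx).2
  · intro x
    by_cases h : ∃ v ∈ Rp, x ∈ Ty v
    · obtain ⟨v, hv, hx⟩ := h
      have h1 := hT v (hRd v hv)
      rw [hμ1 v hv x hx, hμ1 v hv _ (h1.2.2.2.2.2.1 x hx)]
      exact h1.2.2.2.1 x
    · rw [hμ2 x h, hμ2 x h]
  · intro x hx
    by_contra h
    exact hx (hμ2 x h)
  · intro v hv x hx
    rw [hμ1 v hv x hx]
    exact (hT v (hRd v hv)).2.2.2.2.2.1 x hx
  · intro x
    by_cases h : ∃ v ∈ Rp, x ∈ Ty v
    · obtain ⟨v, hv, hx⟩ := h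
      rw [hμ1 v hv x hx]
      exact (hT v (hRd v hv)).2.2.2.2.2.2.1 x
    · rw [hμ2 x h]
      exact H.loopless.irrefl x
  · intro v hv
    have h1 := (hT v (hRd v hv)).2.2.2.2.2.2.2
    have h2 : (Ty v).filter (fun x => μ x ≠ x) = (Ty v).filter (fun x => μ0 v x ≠ x) := by
      apply filter_congr
      intro x hx
      rw [hμ1 v hv x hx]
    rw [h2]
    exact h1
  · intro v hv
    obtain ⟨w, hw, x, hx, hx'⟩ := hmeet v hv
    refine ⟨w, hw, ?_⟩
    have h1 := ((hT v hv).2.2.1 x hx).1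
    have h2 := ((hT w (hRd w hw)).2.2.1 x hx').2
    have h3 : (Nb H v).card ≤ (Nb H v ∩ Nb H w).card + (Nb H v \ Nb H x).card +
        (Nb H x \ Nb H w).card := by
      have h4 : Nb H v ⊆ (Nb H v ∩ Nb H w) ∪ (Nb H v \ Nb H x) ∪ (Nb H x \ Nb H w) := by
        intro y hy
        by_cases hyw : y ∈ Nb H w
        · exact mem_union_left _ (mem_union_left _ (mem_inter.2 ⟨hy, hyw⟩))
        · by_cases hyx : y ∈ Nb H x
          · exact mem_union_right _ (mem_sdiff.2 ⟨hyx, hyw⟩)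
          · exact mem_union_left _ (mem_union_right _ (mem_sdiff.2 ⟨hy, hyx⟩))
      refine (card_le_card h4).trans ((card_union_le _ _).trans ?_)
      exact Nat.add_le_add_right (card_union_le _ _) _
    have h5 := hv.le hΔ hd
    have h6 : ((Nb H v).card : ℝ) ≤ (Nb H v ∩ Nb H w).card + (Nb H v \ Nb H x).card +
        (Nb H x \ Nb H w).card := by exact_mod_cast h3
    linarith

end

end Pool.Agent.Helper16.Sey3
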