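import Pool.Agent.Helper16.Sey3.DECBa

/-!
Packet SEY3-DECB, part 2: counting in the units
-/

set_option autoImplicit false

namespace Pool.Agent.Helper16.Sey3

open Pool.Agent.Helper63.Sey3 Finset

section

variable {V : Type} [Fintype V] {U : Type} [Fintype U]

/-- the units: an abstract description -/
structure Un (H : SimpleGraph V) (μ : V → V) (un : V → U) (H' : SimpleGraph U) : Prop where
  sur : ∀ a, ∃ x, un x = a
  eq : ∀ x y, un x = un y ↔ y = x ∨ y = μ x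
  adj : ∀ x y, H'.Adj (un x) (un y) ↔ un x ≠ un y ∧
    (H.Adj x y ∨ H.Adj (μ x) y ∨ H.Adj x (μ y) ∨ H.Adj (μ x) (μ y))

variable {H : SimpleGraph V} {μ : V → V} {un : V → U} {H' : SimpleGraph U}

open Classical in
theorem cnt (hinv : ∀ x, μ (μ x) = x) (hU : Un H μ un H') (M : Finset V) :
    2 * (M.image un).card + (M.filter (fun z => μ z ≠ z ∧ μ z ∈ M)).card ≤ 2 * M.card := by
  set Z := M.filter (fun z => μ z ≠ z ∧ μ z ∈ M) with hZ
  have h1 : M.card = ∑ b ∈ M.image un, (M.filter (fun z => un z = b)).card :=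
    card_eq_sum_card_fiberwise (fun x hx => mem_coe.2 (mem_image_of_mem un hx))
  have h2 : Z.card = ∑ b ∈ M.image un, (Z.filter (fun z => un z = b)).card :=
    card_eq_sum_card_fiberwise (fun x hx => mem_coe.2 (mem_image_of_mem un (mem_filter.1 hx).1))
  have h3 : 2 * (M.image un).card = ∑ b ∈ M.image un, 2 := by
    rw [sum_const, smul_eq_mul, mul_comm]
  rw [h1, h2, h3, mul_sum, ← sum_add_distrib]
  apply sum_le_sum
  intro b hb
  rcases (Z.filter (fun z => un z = b)).eq_empty_or_nonempty with he | ⟨z, hz⟩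
  · rw [he, card_empty]
    obtain ⟨x, hx, hxb⟩ := mem_image.1 hb
    have : 0 < (M.filter (fun z => un z = b)).card :=
      card_pos.2 ⟨x, mem_filter.2 ⟨hx, hxb⟩⟩
    omega
  · obtain ⟨hzZ, hzb⟩ := mem_filter.1 hz
    obtain ⟨hzM, hz1, hz2⟩ := mem_filter.1 hzZ
    have h4 : un (μ z) = b := by
      rw [← hzb]
      exact ((hU.eq z (μ z)).2 (Or.inr rfl)).symm
    have h5 : ({z, μ z} : Finset V) ⊆ M.filter (fun z => un z = b) := by
      intro y hy
      rcases mem_insert.1 hy with h | h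
      · rw [h]; exact mem_filter.2 ⟨hzM, hzb⟩
      · rw [mem_singleton.1 h]; exact mem_filter.2 ⟨hz2, h4⟩
    have h6 : Z.filter (fun z => un z = b) ⊆ ({z, μ z} : Finset V) := by
      intro y hy
      have h7 := (mem_filter.1 hy).2
      rw [← hzb] at h7
      rcases (hU.eq z y).1 h7.symm with h | h
      · rw [h]; exact mem_insert_self _ _
      · rw [h]; exact mem_insert_of_mem (mem_singleton_self _)
    have h7 := card_le_card h5
    have h8 := card_le_card h6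
    rw [card_pair (Ne.symm hz1)] at h7 h8
    omega

open Classical in
theorem cnt2 (hU : Un H μ un H') (M : Finset V) : M.card ≤ 2 * (M.image un).card := by
  apply card_le_mul_card_image
  intro b hb
  obtain ⟨x, hx, hxb⟩ := mem_image.1 hb
  have h6 : M.filter (fun z => un z = b) ⊆ ({x, μ x} : Finset V) := by
    intro y hy
    have h7 := (mem_filter.1 hy).2
    rw [← hxb] at h7
    rcases (hU.eq x y).1 h7.symm with h | h
    · rw [h]; exact mem_insert_self _ _
    · rw [h]; exact mem_insert_of_mem (mem_singleton_self _)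
  exact (card_le_card h6).trans (card_le_two)

/-- neighbours of a unit -/
theorem adj_image (hU : Un H μ un H') {x : V} {b : U} (h : H'.Adj (un x) b) :
    ∃ y, (H.Adj x y ∨ H.Adj (μ x) y) ∧ un y = b := by
  obtain ⟨y, rfl⟩ := hU.sur b
  have h2 : un (μ y) = un y := ((hU.eq y (μ y)).2 (Or.inr rfl)).symm
  rcases ((hU.adj x y).1 h).2 with h1 | h1 | h1 | h1
  · exact ⟨y, Or.inl h1, rfl⟩
  · exact ⟨y, Or.inr h1, rfl⟩
  · exact ⟨μ y, Or.inl h1, h2⟩
  · exact ⟨μ y, Or.inr h1, h2⟩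

variable {Δ : ℕ} {α δ : ℝ} {Rp : Finset V} {Ty : V → Finset V}

open Classical in
theorem Zlow (D : Dc H Δ α δ Rp Ty μ) (M : Finset V) {w : V} (hw : w ∈ Rp) :
    (δ / 2) * Δ - 2 * ((Nb H w \ M).card : ℝ) ≤
      ((M.filter (fun z => μ z ≠ z ∧ μ z ∈ M)).card : ℝ) := by
  have h1 : (Ty w).filter (fun x => μ x ≠ x) ⊆ M.filter (fun z => μ z ≠ z ∧ μ z ∈ M) ∪
      ((Nb H w \ M) ∪ (Nb H w \ M).image μ) := by
    intro z hz
    obtain ⟨hz1, hz2⟩ := mem_filter.1 hz
    have hzw : z ∈ Nb H w := mem_Nb.2 (D.adj w hw z hz1)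
    have hzw' : μ z ∈ Nb H w := mem_Nb.2 (D.adj w hw _ (D.st w hw z hz1))
    by_cases h2 : z ∈ M
    · by_cases h3 : μ z ∈ M
      · exact mem_union_left _ (mem_filter.2 ⟨h2, hz2, h3⟩)
      · exact mem_union_right _ (mem_union_right _ (mem_image.2
          ⟨μ z, mem_sdiff.2 ⟨hzw', h3⟩, D.inv z⟩))
    · exact mem_union_right _ (mem_union_left _ (mem_sdiff.2 ⟨hzw, h2⟩))
  have h2 := (card_le_card h1).trans ((card_union_le _ _).trans
    (Nat.add_le_add_left (card_union_le _ _) _))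
  have h3 : ((Nb H w \ M).image μ).card ≤ (Nb H w \ M).card := card_image_le
  have h4 : ((Ty w).filter (fun x => μ x ≠ x)).card ≤
      (M.filter (fun z => μ z ≠ z ∧ μ z ∈ M)).card + 2 * (Nb H w \ M).card := by omega
  have h5 : (((Ty w).filter (fun x => μ x ≠ x)).card : ℝ) ≤
      (M.filter (fun z => μ z ≠ z ∧ μ z ∈ M)).card + 2 * (Nb H w \ M).card := by exact_mod_cast h4
  have h6 := D.many w hw
  linarith

open Classical in
/-- degree bound from a set `M` -/
theorem dg_le (D : Dc H Δ α δ Rp Ty μ) (hU : Un H μ un H') (M : Finset V) (a : U)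
    (hM : ∀ b, H'.Adj a b → ∃ y ∈ M, un y = b) {w : V} (hw : w ∈ Rp) :
    ((Nb H' a).card : ℝ) ≤ M.card - (δ / 4) * Δ + ((Nb H w \ M).card : ℝ) := by
  have h1 : Nb H' a ⊆ M.image un := by
    intro b hb
    obtain ⟨y, hy, hyb⟩ := hM b (mem_Nb.1 hb)
    exact mem_image.2 ⟨y, hy, hyb⟩
  have h2 := card_le_card h1
  have h3 := cnt D.inv hU M
  have h4 := Zlow D M hw
  have h5 : 2 * ((Nb H' a).card : ℝ) + ((M.filter (fun z => μ z ≠ z ∧ μ z ∈ M)).card : ℝ) ≤
      2 * (M.card : ℝ) := by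
    have : 2 * (Nb H' a).card + (M.filter (fun z => μ z ≠ z ∧ μ z ∈ M)).card ≤ 2 * M.card := by
      omega
    exact_mod_cast this
  linarith

open Classical in
theorem card_two (D : Dc H Δ α δ Rp Ty μ) (hd : ∀ v, (Nb H v).card ≤ Δ) {w : V} (hw : w ∈ Rp)
    {x : V} (hx : x ∈ Ty w) (S : Finset V) :
    (((S ∩ (Nb H x ∪ Nb H (μ x)))).card : ℝ) ≤ ((S ∩ Nb H w).card : ℝ) + 4 * α * Δ := by
  have h1 : S ∩ (Nb H x ∪ Nb H (μ x)) ⊆ (S ∩ Nb H w) ∪ ((Nb H x \ Nb H w) ∪
      (Nb H (μ x) \ Nb H w)) := by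
    intro y hy
    obtain ⟨hy1, hy2⟩ := mem_inter.1 hy
    by_cases h : y ∈ Nb H w
    · exact mem_union_left _ (mem_inter.2 ⟨hy1, h⟩)
    · rcases mem_union.1 hy2 with h2 | h2
      · exact mem_union_right _ (mem_union_left _ (mem_sdiff.2 ⟨h2, h⟩))
      · exact mem_union_right _ (mem_union_right _ (mem_sdiff.2 ⟨h2, h⟩))
  have h2 := (card_le_card h1).trans ((card_union_le _ _).trans
    (Nat.add_le_add_left (card_union_le _ _) _))
  have h3 : ((S ∩ (Nb H x ∪ Nb H (μ x))).card : ℝ) ≤ ((S ∩ Nb H w).card : ℝ) +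
      (((Nb H x \ Nb H w).card : ℝ) + ((Nb H (μ x) \ Nb H w).card : ℝ)) := by exact_mod_cast h2
  have h4 := D.sub2 w hw x hx
  have h5 := D.sub2 w hw (μ x) (D.st w hw x hx)
  linarith

open Classical in
/-- case (2) -/
theorem deg2 (D : Dc H Δ α δ Rp Ty μ) (hU : Un H μ un H') (hd : ∀ v, (Nb H v).card ≤ Δ) {x : V}
    (hx : μ x ≠ x) : ((Nb H' (un x)).card : ℝ) ≤ (1 + 5 * α - δ / 4) * Δ := by
  obtain ⟨w, hw, hxw⟩ := D.ty x hx
  have h1 := dg_le D hU (Nb H x ∪ Nb H (μ x)) (un x) (by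
    intro b hb
    obtain ⟨y, hy, hyb⟩ := adj_image hU hb
    refine ⟨y, ?_, hyb⟩
    rcases hy with h | h
    · exact mem_union_left _ (mem_Nb.2 h)
    · exact mem_union_right _ (mem_Nb.2 h)) hw
  have h2 := card_two D hd hw hxw univ
  rw [univ_inter, univ_inter] at h2
  have h3 : ((Nb H w).card : ℝ) ≤ Δ := by exact_mod_cast hd w
  have h4 : ((Nb H w \ (Nb H x ∪ Nb H (μ x))).card : ℝ) ≤ α * Δ := by
    refine le_trans ?_ (D.sub1 w hw x hxw)
    have : (Nb H w \ (Nb H x ∪ Nb H (μ x))).card ≤ (Nb H w \ Nb H x).card :=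
      card_le_card (sdiff_subset_sdiff (Subset.refl _) subset_union_left)
    exact_mod_cast this
  linarith

open Classical in
theorem deg1 (hU : Un H μ un H') (hd : ∀ v, (Nb H v).card ≤ Δ) {x : V}
    (hx : μ x = x) : (Nb H' (un x)).card ≤ (Nb H x).card := by
  have h1 : Nb H' (un x) ⊆ (Nb H x).image un := by
    intro b hb
    obtain ⟨y, hy, hyb⟩ := adj_image hU (mem_Nb.1 hb)
    rw [hx, or_self] at hy
    exact mem_image.2 ⟨y, mem_Nb.2 hy, hyb⟩
  exact (card_le_card h1).trans card_image_le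

open Classical in
/-- case (B1) -/
theorem degB1 (D : Dc H Δ α δ Rp Ty μ) (hU : Un H μ un H') (hd : ∀ v, (Nb H v).card ≤ Δ) {x : V}
    (hx : μ x = x) {w : V} (hw : w ∈ Rp) {β : ℝ}
    (hβ : (1 - β) * (Δ : ℝ) ≤ ((Nb H x ∩ Nb H w).card : ℝ)) :
    ((Nb H' (un x)).card : ℝ) ≤ (1 - δ / 4 + β) * Δ := by
  have h1 := dg_le D hU (Nb H x) (un x) (by
    intro b hb
    obtain ⟨y, hy, hyb⟩ := adj_image hU hb
    rw [hx, or_self] at hy
    exact ⟨y, mem_Nb.2 hy, hyb⟩) hw
  have h2 : (Nb H w \ Nb H x).card + (Nb H x ∩ Nb H w).card = (Nb H w).card := by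
    rw [inter_comm]
    exact card_sdiff_add_card_inter _ _
  have h3 : ((Nb H w \ Nb H x).card : ℝ) + ((Nb H x ∩ Nb H w).card : ℝ) = (Nb H w).card := by
    exact_mod_cast h2
  have h4 : ((Nb H w).card : ℝ) ≤ Δ := by exact_mod_cast hd w
  have h5 : ((Nb H x).card : ℝ) ≤ Δ := by exact_mod_cast hd x
  linarith

open Classical in
/-- the number of good `z` -/
theorem good (D : Dc H Δ α δ Rp Ty μ) (hd : ∀ v, (Nb H v).card ≤ Δ) {w : V} (hw : w ∈ Rp)
    {x : V} (hx : x ∈ Ty w) (v : V) :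
    ((Nb H v).card : ℝ) - ((Nb H v ∩ Nb H w).card : ℝ) - 10 * α * Δ ≤
      (((Nb H v).filter (fun z => z ∉ Nb H x ∪ Nb H (μ x) ∧ μ z ∉ Nb H x ∪ Nb H (μ x))).card : ℝ) := by
  set M := Nb H x ∪ Nb H (μ x) with hM
  have h1 : Nb H v ⊆ ((Nb H v).filter (fun z => z ∉ M ∧ μ z ∉ M)) ∪ ((Nb H v ∩ M) ∪
      ((Nb H w \ Nb H x) ∪ ((Nb H w \ Ty w) ∪ ((Nb H x \ Nb H w) ∪
        (Nb H (μ x) \ Nb H w))).image μ)) := by
    intro z hz
    by_cases h2 : z ∈ M
    · exact mem_union_right _ (mem_union_left _ (mem_inter.2 ⟨hz, h2⟩))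
    by_cases h3 : μ z ∈ M
    · refine mem_union_right _ (mem_union_right _ ?_)
      have h4 : μ z ≠ z := fun h => h2 (h ▸ h3)
      obtain ⟨w1, hw1, hzw1⟩ := D.ty z h4
      by_cases h5 : w1 = w
      · subst h5
        refine mem_union_left _ (mem_sdiff.2 ⟨mem_Nb.2 (D.adj _ hw1 z hzw1), fun h6 => h2 ?_⟩)
        exact mem_union_left _ h6
      · refine mem_union_right _ (mem_image.2 ⟨μ z, ?_, D.inv z⟩)
        have h6 : μ z ∉ Ty w := by
          intro h7
          exact disjoint_left.1 (D.dis w1 hw1 w hw h5) (D.st w1 hw1 z hzw1) h7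
        by_cases h7 : μ z ∈ Nb H w
        · exact mem_union_left _ (mem_sdiff.2 ⟨h7, h6⟩)
        · rcases mem_union.1 h3 with h8 | h8
          · exact mem_union_right _ (mem_union_left _ (mem_sdiff.2 ⟨h8, h7⟩))
          · exact mem_union_right _ (mem_union_right _ (mem_sdiff.2 ⟨h8, h7⟩))
    · exact mem_union_left _ (mem_filter.2 ⟨hz, h2, h3⟩)
  have h2 : (Nb H v).card ≤ ((Nb H v).filter (fun z => z ∉ M ∧ μ z ∉ M)).card +
      ((Nb H v ∩ M).card + ((Nb H w \ Nb H x).card + ((Nb H w \ Ty w).card +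
        ((Nb H x \ Nb H w).card + (Nb H (μ x) \ Nb H w).card)))) := by
    refine (card_le_card h1).trans ((card_union_le _ _).trans (Nat.add_le_add_left ?_ _))
    refine (card_union_le _ _).trans (Nat.add_le_add_left ?_ _)
    refine (card_union_le _ _).trans (Nat.add_le_add_left ?_ _)
    refine card_image_le.trans ?_
    refine (card_union_le _ _).trans (Nat.add_le_add_left ?_ _)
    exact card_union_le _ _
  have h3 : ((Nb H v).card : ℝ) ≤ (((Nb H v).filter (fun z => z ∉ M ∧ μ z ∉ M)).card : ℝ) +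
      (((Nb H v ∩ M).card : ℝ) + (((Nb H w \ Nb H x).card : ℝ) + (((Nb H w \ Ty w).card : ℝ) +
        (((Nb H x \ Nb H w).card : ℝ) + ((Nb H (μ x) \ Nb H w).card : ℝ))))) := by
    exact_mod_cast h2
  have h4 := card_two D hd hw hx (Nb H v)
  rw [← hM] at h4
  have h5 := D.sub2 w hw x hx
  have h6 := D.sub2 w hw (μ x) (D.st w hw x hx)
  have h7 := D.sub1 w hw x hx
  have h8 := D.out w hw
  linarith

end

end Pool.Agent.Helper16.Sey3
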