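import Pool.Agent.Helper16.Sey3.GPb

/-!
Packet SEY3-GP, part 3: assembly
-/

set_option autoImplicit false

namespace Pool.Agent.Helper16.Sey3

open Finset Pool.Agent.Helper63.Sey3 GP
open Pool.Agent.Helper41.Girth4

theorem two_exp {t : ℝ} (ht : 1 ≤ t) : Real.exp (-(2 * t)) + Real.exp (-(2 * t)) ≤ Real.exp (-t) := by
  have h1 : (2 : ℝ) ≤ Real.exp t := by
    have := Real.add_one_le_exp t
    linarith
  have h2 : Real.exp (-t) = Real.exp t * Real.exp (-(2 * t)) := by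
    rw [← Real.exp_add]
    congr 1
    ring
  rw [h2]
  have h3 := Real.exp_pos (-(2 * t))
  nlinarith

/-- the bound of `GoalNEG` in our case -/
theorem neg_bound {q D n : ℕ} (hD : 1 ≤ D) (hq : D ≤ q) {x : ℝ} (hx : x ≤ n) :
    (2 : ℝ) ^ (n / 32) * (1 - (1 - 1 / (2 * (q : ℝ))) ^ (2 * D) / 2) ^ n ≤
      Real.exp (-(3 / 32 * x)) := by
  have hD' : (1 : ℝ) ≤ D := by exact_mod_cast hD
  have hq' : (D : ℝ) ≤ q := by exact_mod_cast hq
  have hq0 : (0 : ℝ) < q := by linarith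
  set ρ := 1 / (2 * (q : ℝ)) with hρ
  have hρ0 : 0 ≤ ρ := by positivity
  have hρD : (D : ℝ) * ρ ≤ 1 / 2 := by
    rw [hρ, mul_one_div, div_le_iff₀ (by positivity)]
    linarith
  have hρ1 : ρ ≤ 1 / 2 := by nlinarith
  have h1 : 1 + (D : ℝ) * (-ρ) ≤ (1 + (-ρ)) ^ D := one_add_mul_le_pow (by linarith) _
  have h2 : 1 / 2 ≤ (1 - ρ) ^ D := by
    have : 1 + (-ρ) = 1 - ρ := by ring
    rw [this] at h1
    linarith
  have h3 : 1 / 4 ≤ (1 - ρ) ^ (2 * D) := by
    rw [mul_comm, pow_mul]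
    nlinarith
  have h4 : (1 - ρ) ^ (2 * D) ≤ 1 := pow_le_one₀ (by linarith) (by linarith)
  have h5 : (1 - (1 - ρ) ^ (2 * D) / 2) ^ n ≤ Real.exp (-(n / 8)) := by
    have h6 : 1 - (1 - ρ) ^ (2 * D) / 2 ≤ Real.exp (-(1 / 8)) := by
      have := Real.add_one_le_exp (-(1 / 8 : ℝ))
      linarith
    calc (1 - (1 - ρ) ^ (2 * D) / 2) ^ n ≤ (Real.exp (-(1 / 8))) ^ n :=
          pow_le_pow_left₀ (by linarith) h6 n
      _ = Real.exp (-(n / 8)) := by
          rw [← Real.exp_nat_mul]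
          congr 1
          ring
  have h6 : (2 : ℝ) ^ (n / 32) ≤ Real.exp (n / 32) := by
    have h7 : (2 : ℝ) ≤ Real.exp 1 := by
      have := Real.add_one_le_exp (1 : ℝ)
      linarith
    calc (2 : ℝ) ^ (n / 32) ≤ (Real.exp 1) ^ (n / 32) := pow_le_pow_left₀ (by norm_num) h7 _
      _ = Real.exp ((n / 32 : ℕ) : ℝ) := by
          rw [← Real.exp_nat_mul, mul_one]
      _ ≤ Real.exp (n / 32) := Real.exp_le_exp.2 (by
          have := @Nat.cast_div_le ℝ _ _ _ n 32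
          exact_mod_cast this)
  calc (2 : ℝ) ^ (n / 32) * (1 - (1 - ρ) ^ (2 * D) / 2) ^ n ≤
        Real.exp (n / 32) * Real.exp (-(n / 8)) :=
        mul_le_mul h6 h5 (pow_nonneg (by linarith) _) (Real.exp_pos _).le
    _ = Real.exp (-(3 / 32 * n)) := by
        rw [← Real.exp_add]
        congr 1
        ring
    _ ≤ Real.exp (-(3 / 32 * x)) := Real.exp_le_exp.2 (by linarith)

theorem goalGP (hM : GoalMCD) (hN : GoalNEG) : GoalGP := by
  classical
  intro δ hδ hδ1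
  set c : ℝ := δ ^ 2 / 2 ^ 20 with hc
  have hc0 : 0 < c := by positivity
  refine ⟨c, ⌈1 / c⌉₊, hc0, ?_⟩
  intro V _ P κ hD hκ v hp
  have hD1 : 1 / c ≤ P.D := (Nat.le_ceil _).trans (by exact_mod_cast hD)
  have hDpos : (1 : ℝ) ≤ P.D := by exact_mod_cast P.hD
  have hcD : 1 ≤ c * P.D := by
    rw [div_le_iff₀ hc0] at hD1
    linarith
  have hcδ : c * 2 ^ 20 = δ ^ 2 := by rw [hc]; ring
  have hcδ2 : c * 8192 ≤ δ := by nlinarith
  have h4D : 4 ≤ δ * P.D := by nlinarith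
  by_cases hdg : (P.dg v : ℝ) ≤ (1 - δ / 4) * P.D
  · have hall : ∀ ω, P.Gd κ ω v := by
      intro ω
      unfold Sy.Gd
      have h1 : ((P.dg v + κ : ℕ) : ℝ) ≤ P.D := by push_cast; nlinarith
      have h2 : P.dg v + κ ≤ P.D := by exact_mod_cast h1
      omega
    rw [Pr_congr (B := fun _ => False) (fun ω => by simp [hall ω]), Pr_false]
    positivity
  push Not at hdg
  set x : ℝ := δ * P.D / 256 with hx
  have hx0 : 0 ≤ x := by positivity
  let F : (OI P v → P.Lab) → ℝ := fun z => ((CC (ad P v) (ch P) z).card : ℝ)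
  let nh : (OI P v → P.Lab) → (OJ P v → P.Lab) → ℕ := fun z y =>
    Nat.card {a // a ∈ CC (ad P v) (ch P) z ∧ ∀ j ∈ XS P v z a, ch P (y j) ≠ some a}
  let e : (V → P.Lab) ≃ (OI P v → P.Lab) × (OJ P v → P.Lab) :=
    Equiv.piEquivPiSubtypeProd (fun u => P.Own v u) (fun _ => P.Lab)
  have h1 : ∀ ω : P.Om, ¬ P.Gd κ ω v → F (e ω).1 ≤ x ∨
      (x < F (e ω).1 ∧ nh (e ω).1 (e ω).2 ≤ (CC (ad P v) (ch P) (e ω).1).card / 32) := by
    intro ω hω
    by_contra hcon
    push Not at hcon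
    apply hω
    obtain ⟨h2, h3⟩ := hcon
    have h4 := h3 h2
    have h5 : nh (e ω).1 (e ω).2 ≤ P.rp ω v := rp_ge P v ω
    have h6 : F (e ω).1 ≤ 32 * (P.rp ω v : ℝ) := by
      have h11 : (CC (ad P v) (ch P) (e ω).1).card ≤ 32 * P.rp ω v := by omega
      have h12 : ((CC (ad P v) (ch P) (e ω).1).card : ℝ) ≤ 32 * (P.rp ω v : ℝ) := by
        exact_mod_cast h11
      exact h12
    have h7 : (κ : ℝ) ≤ P.rp ω v := by
      have h8 : x = δ * P.D / 256 := hx
      nlinarith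
    have h9 : κ ≤ P.rp ω v := by exact_mod_cast h7
    have h10 := P.dg_le v
    unfold Sy.Gd
    omega
  have hq1 : (P.D : ℝ) ≤ P.q := by exact_mod_cast P.D_le_q
  have hq2 : (P.q : ℝ) ≤ 2 * P.D := by exact_mod_cast P.hq2
  have hq0 : (0 : ℝ) < P.q := by linarith
  have hρ0 : 0 ≤ 1 / (2 * (P.q : ℝ)) := by positivity
  have hρ1 : 1 / (2 * (P.q : ℝ)) ≤ 1 := by
    rw [div_le_one (by positivity)]
    linarith
  have hI : Fintype.card (OI P v) = P.dg v := by
    unfold Sy.dg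
    rw [Nat.card_eq_fintype_card]
  have hdgD : (P.dg v : ℝ) ≤ P.D := by exact_mod_cast P.dg_le v
  have hdg0 : (0 : ℝ) < P.dg v := by nlinarith
  -- the first part
  have hA : Pr (fun z : OI P v → P.Lab => F z ≤ x) ≤ Real.exp (-(2 * (c * P.D))) := by
    obtain ⟨NP, hNP, hcard⟩ := pairs P v δ hp
    have hn : (Fintype.card (OI P v) : ℝ) * (1 / (2 * (P.q : ℝ))) ≤ 1 / 2 := by
      rw [hI, mul_one_div, div_le_iff₀ (by positivity)]
      linarith
    have hm := mean (adj := ad P v) (χ := ch P) hρ0 hρ1 hn (Pr_ch P) NP hNP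
    have h2 : δ / 4 * (P.D : ℝ) ^ 2 ≤ NP.card := by
      have h3 : (1 - δ / 2) * (P.D : ℝ) ^ 2 ≤ (P.dg v : ℝ) ^ 2 := by
        have h4 : ((1 - δ / 4) * (P.D : ℝ)) ^ 2 ≤ (P.dg v : ℝ) ^ 2 :=
          pow_le_pow_left₀ (mul_nonneg (by linarith) (by linarith)) hdg.le 2
        nlinarith [sq_nonneg (δ * (P.D : ℝ))]
      nlinarith
    have h3 : (P.q : ℝ) * NP.card * ((1 / (2 * (P.q : ℝ))) ^ 2 / 4) = NP.card / (16 * P.q) := by
      field_simp
      ring
    have h4 : 2 * x ≤ (NP.card : ℝ) / (16 * P.q) := by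
      rw [le_div_iff₀ (by positivity), hx]
      nlinarith
    rw [h3] at hm
    have h5 := hM (OI P v) P.Lab F 2 x (by norm_num) hx0 (fun ω i l => CC_lip ω i l)
    have h6 : Pr (fun z : OI P v → P.Lab => F z ≤ x) ≤
        Pr (fun ω : OI P v → P.Lab => F ω ≤ (∑ ω', F ω') / Fintype.card (OI P v → P.Lab) - x) := by
      apply Pr_mono
      intro z hz
      have h7 : 2 * x ≤ (∑ ω', F ω') / Fintype.card (OI P v → P.Lab) := h4.trans hm
      linarith
    refine h6.trans (h5.trans (Real.exp_le_exp.2 ?_))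
    rw [neg_le_neg_iff, hI, le_div_iff₀ (by positivity), hx]
    have h8 : c = δ ^ 2 / 2 ^ 20 := hc
    rw [h8]
    have h9 : 0 ≤ δ ^ 2 * (P.D : ℝ) * (P.D - P.dg v) := by
      have : 0 ≤ (P.D : ℝ) - P.dg v := by linarith
      positivity
    nlinarith
  have hB : ∀ z : OI P v → P.Lab, Pr (fun y : OJ P v → P.Lab =>
      x < F z ∧ nh z y ≤ (CC (ad P v) (ch P) z).card / 32) ≤ Real.exp (-(2 * (c * P.D))) := by
    intro z
    by_cases hz : x < F z
    · have h2 : Pr (fun y : OJ P v → P.Lab =>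
          x < F z ∧ nh z y ≤ (CC (ad P v) (ch P) z).card / 32) ≤
          Pr (fun y : OJ P v → P.Lab => nh z y ≤ (CC (ad P v) (ch P) z).card / 32) :=
        Pr_mono fun y hy => hy.2
      have h3 := hN (OJ P v) P.Lab (Fin P.q) (ch P) (CC (ad P v) (ch P) z) (XS P v z)
        (1 / (2 * (P.q : ℝ))) (2 * P.D) ((CC (ad P v) (ch P) z).card / 32) hρ0 hρ1
        (fun a _ => Pr_ch P a) (fun a ha => XS_card P v z ha)
      have h4 := neg_bound P.hD P.D_le_q hz.le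
      refine h2.trans (h3.trans (h4.trans (Real.exp_le_exp.2 ?_)))
      rw [neg_le_neg_iff, hx]
      nlinarith
    · rw [Pr_congr (B := fun _ => False) (fun y => by simp [hz]), Pr_false]
      positivity
  calc Pr (fun ω : P.Om => ¬ P.Gd κ ω v) ≤ Pr (fun ω : P.Om => F (e ω).1 ≤ x ∨
        (x < F (e ω).1 ∧ nh (e ω).1 (e ω).2 ≤ (CC (ad P v) (ch P) (e ω).1).card / 32)) :=
        Pr_mono h1
    _ ≤ Pr (fun ω : P.Om => F (e ω).1 ≤ x) + Pr (fun ω : P.Om =>
        x < F (e ω).1 ∧ nh (e ω).1 (e ω).2 ≤ (CC (ad P v) (ch P) (e ω).1).card / 32) :=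
        Pr_or_le _ _
    _ = Pr (fun z : (OI P v → P.Lab) × (OJ P v → P.Lab) => F z.1 ≤ x) +
        Pr (fun z : (OI P v → P.Lab) × (OJ P v → P.Lab) =>
          x < F z.1 ∧ nh z.1 z.2 ≤ (CC (ad P v) (ch P) z.1).card / 32) := by
        congr 1
        · exact Pr_equiv e (fun z => F z.1 ≤ x)
        · exact Pr_equiv e (fun z => x < F z.1 ∧ nh z.1 z.2 ≤ (CC (ad P v) (ch P) z.1).card / 32)
    _ ≤ Real.exp (-(2 * (c * P.D))) + Real.exp (-(2 * (c * P.D))) := by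
        refine add_le_add ?_ ?_
        · have := Pr_fst (β := OJ P v → P.Lab) (fun z : OI P v → P.Lab => F z ≤ x)
          rw [this]
          exact hA
        · exact Pr_le_of_forall (fun z y => x < F z ∧
            nh z y ≤ (CC (ad P v) (ch P) z).card / 32) _ hB (Real.exp_pos _).le
    _ ≤ Real.exp (-(c * P.D)) := two_exp hcD

end Pool.Agent.Helper16.Sey3
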