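import Pool.Agent.Helper63.Sey3.Goals

/-!
Packet SEY3-GP, part 1: colours with exactly two proposals
-/

set_option autoImplicit false

namespace Pool.Agent.Helper16.Sey3.GP

open Finset Pool.Agent.Helper63.Sey3
open Pool.Agent.Helper41.Girth4

section abs

variable {I L : Type} {q : ℕ}

open Classical in
/-- the colours with exactly two proposals, which are not adjacent -/
noncomputable def CC (adj : I → I → Prop) (χ : L → Option (Fin q)) (ω : I → L) :
    Finset (Fin q) :=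
  univ.filter (fun a => ∃ u u', u ≠ u' ∧ ¬ adj u u' ∧ χ (ω u) = some a ∧ χ (ω u') = some a ∧
    ∀ w, χ (ω w) = some a → w = u ∨ w = u')

variable {adj : I → I → Prop} {χ : L → Option (Fin q)}

theorem mem_CC {ω : I → L} {a : Fin q} : a ∈ CC adj χ ω ↔
    ∃ u u', u ≠ u' ∧ ¬ adj u u' ∧ χ (ω u) = some a ∧ χ (ω u') = some a ∧
      ∀ w, χ (ω w) = some a → w = u ∨ w = u' := by
  classical
  simp [CC]

theorem CC_congr {ω ω' : I → L} {a : Fin q} (h : ∀ w, χ (ω w) = some a ↔ χ (ω' w) = some a)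
    (ha : a ∈ CC adj χ ω) : a ∈ CC adj χ ω' := by
  rw [mem_CC] at ha ⊢
  obtain ⟨u, u', h1, h2, h3, h4, h5⟩ := ha
  exact ⟨u, u', h1, h2, (h u).1 h3, (h u').1 h4, fun w hw => h5 w ((h w).2 hw)⟩

/-- exactly the two elements of `p` have the colour `a` -/
def EE (χ : L → Option (Fin q)) (a : Fin q) (p : I × I) (ω : I → L) : Prop :=
  ∀ w, (χ (ω w) = some a ↔ (w = p.1 ∨ w = p.2))

theorem CC_diff [DecidableEq I] (ω : I → L) (i : I) (l : L) :
    (CC adj χ (Function.update ω i l)).card ≤ (CC adj χ ω).card + 2 := by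
  classical
  have h1 : CC adj χ (Function.update ω i l) ⊆ CC adj χ ω ∪
      ((χ (ω i)).toFinset ∪ (χ l).toFinset) := by
    intro a ha
    by_cases h2 : χ (ω i) = some a
    · refine mem_union_right _ (mem_union_left _ ?_)
      rw [h2]; simp
    by_cases h3 : χ l = some a
    · refine mem_union_right _ (mem_union_right _ ?_)
      rw [h3]; simp
    refine mem_union_left _ (CC_congr (fun w => ?_) ha)
    by_cases hw : w = i
    · rw [hw, Function.update_self]
      exact ⟨fun h => absurd h h3, fun h => absurd h h2⟩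
    · rw [Function.update_of_ne hw]
  have h2 : ∀ x : Option (Fin q), x.toFinset.card ≤ 1 := by
    intro x
    cases x <;> simp
  have h3 := (card_le_card h1).trans ((card_union_le _ _).trans
    (Nat.add_le_add_left (card_union_le _ _) _))
  have h4 := h2 (χ (ω i))
  have h5 := h2 (χ l)
  omega

theorem CC_lip [DecidableEq I] (ω : I → L) (i : I) (l : L) :
    |((CC adj χ (Function.update ω i l)).card : ℝ) - ((CC adj χ ω).card : ℝ)| ≤ 2 := by
  have h1 := CC_diff (adj := adj) (χ := χ) ω i l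
  have h2 := CC_diff (adj := adj) (χ := χ) (Function.update ω i l) i (ω i)
  rw [Function.update_idem, Function.update_eq_self] at h2
  have h3 : ((CC adj χ (Function.update ω i l)).card : ℝ) ≤ ((CC adj χ ω).card : ℝ) + 2 := by
    exact_mod_cast h1
  have h4 : ((CC adj χ ω).card : ℝ) ≤ ((CC adj χ (Function.update ω i l)).card : ℝ) + 2 := by
    exact_mod_cast h2
  rw [abs_le]
  constructor <;> linarith

theorem Pr_EE [Fintype I] [Fintype L] [Nonempty L] {ρ : ℝ} (h0 : 0 ≤ ρ) (h1 : ρ ≤ 1) (hn : (Fintype.card I : ℝ) * ρ ≤ 1 / 2)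
    {a : Fin q} (hρ : Pr (fun l => χ l = some a) = ρ) {p : I × I} (hp : p.1 ≠ p.2) :
    ρ ^ 2 / 2 ≤ Pr (EE χ a p) := by
  classical
  have e1 : Pr (EE χ a p) =
      ∏ w, Pr (fun l => (χ l = some a ↔ (w = p.1 ∨ w = p.2))) :=
    Pr_pi (fun w l => (χ l = some a ↔ (w = p.1 ∨ w = p.2)))
  have e2 : ∀ w, Pr (fun l => (χ l = some a ↔ (w = p.1 ∨ w = p.2))) =
      if w ∈ ({p.1, p.2} : Finset I) then ρ else 1 - ρ := by
    intro w
    by_cases hw : w ∈ ({p.1, p.2} : Finset I)
    · rw [if_pos hw, ← hρ]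
      apply Pr_congr
      intro l
      have : (w = p.1 ∨ w = p.2) := by simpa using hw
      simp [this]
    · rw [if_neg hw, ← hρ, ← Pr_not]
      apply Pr_congr
      intro l
      have : ¬ (w = p.1 ∨ w = p.2) := by simpa using hw
      simp only [this, iff_false]
  rw [e1, prod_congr rfl (fun w _ => e2 w), prod_ite, prod_const, prod_const]
  have h2 : (univ.filter (fun w => w ∈ ({p.1, p.2} : Finset I))).card = 2 := by
    rw [filter_mem_eq_inter, univ_inter, card_pair hp]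
  rw [h2]
  have h3 : (univ.filter (fun w => w ∉ ({p.1, p.2} : Finset I))).card ≤ Fintype.card I :=
    card_le_univ _
  have h4 : (1 - ρ) ^ (Fintype.card I) ≤
      (1 - ρ) ^ (univ.filter (fun w => w ∉ ({p.1, p.2} : Finset I))).card :=
    pow_le_pow_of_le_one (by linarith) (by linarith) h3
  have h5 : 1 + (Fintype.card I : ℝ) * (-ρ) ≤ (1 + (-ρ)) ^ (Fintype.card I) :=
    one_add_mul_le_pow (by linarith) _
  have h6 : 1 / 2 ≤ (1 - ρ) ^ (Fintype.card I) := by
    have : 1 + (-ρ) = 1 - ρ := by ring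
    rw [this] at h5
    linarith
  have h7 : (0 : ℝ) ≤ ρ ^ 2 := by positivity
  nlinarith

theorem card_EE [DecidableEq I] (a : Fin q) (ω : I → L) (NP : Finset (I × I))
    (hNP : ∀ p ∈ NP, p.1 ≠ p.2 ∧ ¬ adj p.1 p.2) [DecidablePred fun p : I × I => EE χ a p ω]
    [Decidable (a ∈ CC adj χ ω)] :
    ((NP.filter (fun p => EE χ a p ω)).card : ℝ) ≤ 2 * (if a ∈ CC adj χ ω then (1 : ℝ) else 0) := by
  rcases (NP.filter (fun p => EE χ a p ω)).eq_empty_or_nonempty with he | ⟨p0, hp0⟩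
  · rw [he, card_empty]
    split_ifs <;> simp
  · obtain ⟨h1, h2⟩ := mem_filter.1 hp0
    obtain ⟨h3, h4⟩ := hNP p0 h1
    have ha : a ∈ CC adj χ ω := by
      rw [mem_CC]
      exact ⟨p0.1, p0.2, h3, h4, (h2 _).2 (Or.inl rfl), (h2 _).2 (Or.inr rfl), fun w hw => (h2 w).1 hw⟩
    rw [if_pos ha, mul_one]
    have h5 : NP.filter (fun p => EE χ a p ω) ⊆ {p0, p0.swap} := by
      intro p hp
      obtain ⟨h6, h7⟩ := mem_filter.1 hp
      obtain ⟨h8, -⟩ := hNP p h6
      have h9 := (h2 p.1).1 ((h7 p.1).2 (Or.inl rfl))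
      have h10 := (h2 p.2).1 ((h7 p.2).2 (Or.inr rfl))
      rw [mem_insert, mem_singleton, Prod.ext_iff, Prod.ext_iff, Prod.fst_swap, Prod.snd_swap]
      rcases h9 with h9 | h9 <;> rcases h10 with h10 | h10
      · exact absurd (h9.trans h10.symm) h8
      · exact Or.inl ⟨h9, h10⟩
      · exact Or.inr ⟨h9, h10⟩
      · exact absurd (h9.trans h10.symm) h8
    have h6 := (card_le_card h5).trans card_le_two
    exact_mod_cast h6

theorem mean [Fintype I] [DecidableEq I] [Fintype L] [Nonempty L] {ρ : ℝ} (h0 : 0 ≤ ρ) (h1 : ρ ≤ 1) (hn : (Fintype.card I : ℝ) * ρ ≤ 1 / 2)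
    (hρ : ∀ a, Pr (fun l => χ l = some a) = ρ) (NP : Finset (I × I))
    (hNP : ∀ p ∈ NP, p.1 ≠ p.2 ∧ ¬ adj p.1 p.2) :
    (q : ℝ) * NP.card * (ρ ^ 2 / 4) ≤
      (∑ ω, ((CC adj χ ω).card : ℝ)) / Fintype.card (I → L) := by
  classical
  have e1 : ∀ a, (NP.card : ℝ) * (ρ ^ 2 / 4) ≤ Pr (fun ω : I → L => a ∈ CC adj χ ω) := by
    intro a
    have h2 : (NP.card : ℝ) * (ρ ^ 2 / 2) ≤ ∑ p ∈ NP, Pr (EE χ a p) := by
      rw [← nsmul_eq_mul, ← sum_const]
      exact sum_le_sum fun p hp => Pr_EE h0 h1 hn (hρ a) (hNP p hp).1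
    have h3 : ∑ p ∈ NP, Pr (EE χ a p) ≤ 2 * Pr (fun ω : I → L => a ∈ CC adj χ ω) := by
      have hc : (0 : ℝ) < Fintype.card (I → L) := by exact_mod_cast Fintype.card_pos
      simp_rw [Pr_eq_sum]
      rw [← sum_div, mul_div_assoc', sum_comm, mul_sum]
      apply div_le_div_of_nonneg_right _ hc.le
      apply sum_le_sum
      intro ω _
      have h4 := card_EE (adj := adj) (χ := χ) a ω NP hNP
      rw [card_filter] at h4
      push_cast at h4
      exact h4
    linarith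
  have e2 : ∀ ω : I → L, ((CC adj χ ω).card : ℝ) = ∑ a, if a ∈ CC adj χ ω then (1 : ℝ) else 0 := by
    intro ω
    rw [sum_boole]
    congr 2
    ext a
    simp
  simp_rw [e2]
  rw [sum_comm, sum_div]
  calc (q : ℝ) * NP.card * (ρ ^ 2 / 4) = ∑ _a : Fin q, (NP.card : ℝ) * (ρ ^ 2 / 4) := by
        rw [sum_const, card_univ, Fintype.card_fin, nsmul_eq_mul, mul_assoc]
    _ ≤ ∑ a : Fin q, Pr (fun ω : I → L => a ∈ CC adj χ ω) := sum_le_sum fun a _ => e1 a
    _ = _ := by
        apply sum_congr rfl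
        intro a _
        rw [Pr_eq_sum]

end abs

end Pool.Agent.Helper16.Sey3.GP
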