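import Pool.Agent.Helper16.Sey3.GPa

/-!
Packet SEY3-GP, part 2: application to the system
-/

set_option autoImplicit false

namespace Pool.Agent.Helper16.Sey3.GP

open Finset Pool.Agent.Helper63.Sey3
open Pool.Agent.Helper41.Girth4

theorem Pr_bool : Pr (fun x : Bool => x = true) = 1 / 2 := by
  unfold Pr
  rw [Nat.card_unique, Nat.card_eq_fintype_card, Fintype.card_bool]
  norm_num

theorem Pr_fin {q : ℕ} (a : Fin q) : Pr (fun x : Fin q => x = a) = 1 / q := by
  unfold Pr
  rw [Nat.card_unique, Nat.card_eq_fintype_card, Fintype.card_fin]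
  norm_num

section

variable {V : Type} [Fintype V] (P : Sy V)

/-- the proposal of round 0 -/
def ch (l : P.Lab) : Option (Fin P.q) := if l.1.1 = true then some l.1.2 else none

theorem ch_iff {l : P.Lab} {a : Fin P.q} : ch P l = some a ↔ P.al l ∧ P.co l = a := by
  unfold ch Sy.al Sy.co
  by_cases h : l.1.1 = true
  · simp [h]
  · simp [h]

theorem Pr_ch (a : Fin P.q) : Pr (fun l : P.Lab => ch P l = some a) = 1 / (2 * (P.q : ℝ)) := by
  have h1 : Pr (fun l : P.Lab => ch P l = some a) =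
      Pr (fun l : P.Lab => (fun x : Bool × Fin P.q => x.1 = true ∧ x.2 = a) l.1) := by
    apply Pr_congr
    intro l
    rw [ch_iff]
    rfl
  have h2 := Pr_fst (β := (Fin P.Z × Equiv.Perm (Fin P.q)) × (Fin P.J → Fin P.L) ×
    (Fin P.qm × Fin P.J)) (fun x : Bool × Fin P.q => x.1 = true ∧ x.2 = a)
  have h3 := Pr_prod (fun x : Bool => x = true) (fun x : Fin P.q => x = a)
  rw [h1, h2, h3, Pr_bool, Pr_fin]
  rw [one_div_mul_one_div]

variable (v : V)

/-- labels of the own neighbours -/
abbrev OI : Type := {u // P.Own v u}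
/-- labels of the others -/
abbrev OJ : Type := {u // ¬ P.Own v u}

noncomputable instance : Fintype (OI P v) := Fintype.ofFinite _

noncomputable instance : Fintype (OJ P v) := Fintype.ofFinite _

/-- adjacency of own neighbours -/
def ad : OI P v → OI P v → Prop := fun u u' => P.H.Adj u.1 u'.1

open Classical in
/-- the vertices which can hit the colour `a` -/
noncomputable def XS (z : OI P v → P.Lab) (a : Fin P.q) : Finset (OJ P v) :=
  univ.filter (fun y => ∃ u : OI P v, ch P (z u) = some a ∧ P.Own u.1 y.1)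

theorem mem_XS {z : OI P v → P.Lab} {a : Fin P.q} {y : OJ P v} : y ∈ XS P v z a ↔
    ∃ u : OI P v, ch P (z u) = some a ∧ P.Own u.1 y.1 := by
  classical
  simp [XS]

open Classical in
theorem dg_eq (u : V) : P.dg u = (univ.filter (fun y => P.Own u y)).card := by
  unfold Sy.dg
  rw [Nat.card_eq_fintype_card, Fintype.card_subtype]

open Classical in
theorem XS_card (z : OI P v → P.Lab) {a : Fin P.q} (ha : a ∈ CC (ad P v) (ch P) z) :
    (XS P v z a).card ≤ 2 * P.D := by
  rw [mem_CC] at ha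
  obtain ⟨u, u', -, -, -, -, h5⟩ := ha
  have h1 : (XS P v z a).map (Function.Embedding.subtype _) ⊆
      (univ.filter (fun y => P.Own u.1 y)) ∪ (univ.filter (fun y => P.Own u'.1 y)) := by
    intro y hy
    rw [mem_map] at hy
    obtain ⟨y', hy', rfl⟩ := hy
    rw [mem_XS] at hy'
    obtain ⟨w, hw1, hw2⟩ := hy'
    rcases h5 w hw1 with h | h
    · rw [h] at hw2
      exact mem_union_left _ (mem_filter.2 ⟨mem_univ _, hw2⟩)
    · rw [h] at hw2
      exact mem_union_right _ (mem_filter.2 ⟨mem_univ _, hw2⟩)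
  have h2 := (card_le_card h1).trans (card_union_le _ _)
  rw [card_map, ← dg_eq, ← dg_eq] at h2
  have h3 := P.dg_le u.1
  have h4 := P.dg_le u'.1
  omega

/-- the colours which are not hit are counted by `rp` -/
theorem rp_ge (ω : P.Om) :
    Nat.card {a // a ∈ CC (ad P v) (ch P) (fun u : OI P v => ω u.1) ∧
      ∀ y ∈ XS P v (fun u : OI P v => ω u.1) a, ch P (ω y.1) ≠ some a} ≤ P.rp ω v := by
  unfold Sy.rp
  apply Nat.card_le_card_of_injective
    (fun a => ⟨a.1, ?_⟩ : {a // a ∈ CC (ad P v) (ch P) (fun u : OI P v => ω u.1) ∧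
      ∀ y ∈ XS P v (fun u : OI P v => ω u.1) a, ch P (ω y.1) ≠ some a} →
        {a : Fin P.q // ∃ u u', u ≠ u' ∧ P.Own v u ∧ P.Own v u' ∧
          P.c0 ω u = some a ∧ P.c0 ω u' = some a})
  · intro a b hab
    have h := congrArg Subtype.val hab
    exact Subtype.ext h
  · obtain ⟨a, ha, hno⟩ := a
    rw [mem_CC] at ha
    obtain ⟨u, u', h1, h2, h3, h4, h5⟩ := ha
    have key : ∀ w : OI P v, (w = u ∨ w = u') → P.c0 ω w.1 = some a := by
      intro w hw
      have h6 : ch P (ω w.1) = some a := by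
        rcases hw with h | h
        · rw [h]; exact h3
        · rw [h]; exact h4
      obtain ⟨h7, h8⟩ := (ch_iff P).1 h6
      unfold Sy.c0
      rw [if_pos, h8]
      refine ⟨h7, fun y hy hc => ?_⟩
      have h9 : ch P (ω y) = some a := (ch_iff P).2 ⟨hc.1, hc.2.trans h8⟩
      by_cases hyN : P.Own v y
      · have h10 := h5 ⟨y, hyN⟩ h9
        have h11 : ¬ P.H.Adj w.1 y := by
          rcases hw with hw | hw <;> rcases h10 with h10 | h10
          · have e1 : y = u.1 := congrArg Subtype.val h10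
            rw [hw, e1]
            exact P.H.loopless.irrefl _
          · have e1 : y = u'.1 := congrArg Subtype.val h10
            rw [hw, e1]
            exact h2
          · have e1 : y = u.1 := congrArg Subtype.val h10
            rw [hw, e1]
            exact fun h => h2 h.symm
          · have e1 : y = u'.1 := congrArg Subtype.val h10
            rw [hw, e1]
            exact P.H.loopless.irrefl _
        exact h11 hy.1
      · refine hno ⟨y, hyN⟩ ?_ h9
        rw [mem_XS]
        exact ⟨w, h6, hy⟩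
    exact ⟨u.1, u'.1, fun h => h1 (Subtype.ext h), u.2, u'.2, key u (Or.inl rfl),
      key u' (Or.inr rfl)⟩

/-- number of nonadjacent pairs of own neighbours -/
theorem pairs (δ : ℝ) (h : (Nat.card {p : V × V // P.Own v p.1 ∧ P.Own v p.2 ∧ P.H.Adj p.1 p.2} : ℝ) ≤
    (1 - δ) * (P.D : ℝ) ^ 2) : ∃ NP : Finset (OI P v × OI P v),
      (∀ p ∈ NP, p.1 ≠ p.2 ∧ ¬ ad P v p.1 p.2) ∧
      (P.dg v : ℝ) ^ 2 - P.dg v - (1 - δ) * (P.D : ℝ) ^ 2 ≤ NP.card := by
  classical
  refine ⟨univ.filter (fun p => p.1 ≠ p.2 ∧ ¬ ad P v p.1 p.2), fun p hp => (mem_filter.1 hp).2, ?_⟩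
  have hI : Fintype.card (OI P v) = P.dg v := by
    unfold Sy.dg
    rw [Nat.card_eq_fintype_card]
  have h1 : (univ : Finset (OI P v × OI P v)) ⊆
      (univ.filter (fun p : OI P v × OI P v => p.1 ≠ p.2 ∧ ¬ ad P v p.1 p.2)) ∪
      ((univ.image (fun u : OI P v => (u, u))) ∪
        (univ.filter (fun p : OI P v × OI P v => ad P v p.1 p.2))) := by
    intro p _
    by_cases h2 : p.1 = p.2
    · exact mem_union_right _ (mem_union_left _ (mem_image.2 ⟨p.1, mem_univ _,
        Prod.ext rfl h2⟩))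
    · by_cases h3 : ad P v p.1 p.2
      · exact mem_union_right _ (mem_union_right _ (mem_filter.2 ⟨mem_univ _, h3⟩))
      · exact mem_union_left _ (mem_filter.2 ⟨mem_univ _, h2, h3⟩)
  have h2 := (card_le_card h1).trans ((card_union_le _ _).trans
    (Nat.add_le_add_left (card_union_le _ _) _))
  have h3 : (univ.image (fun u : OI P v => (u, u))).card ≤ P.dg v := by
    rw [← hI]
    exact card_image_le
  have h4 : (univ.filter (fun p : OI P v × OI P v => ad P v p.1 p.2)).card ≤
      Nat.card {p : V × V // P.Own v p.1 ∧ P.Own v p.2 ∧ P.H.Adj p.1 p.2} := by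
    rw [← Fintype.card_subtype, ← Nat.card_eq_fintype_card]
    apply Nat.card_le_card_of_injective
      (fun p => ⟨(p.1.1.1, p.1.2.1), p.1.1.2, p.1.2.2, p.2⟩ :
        {p : OI P v × OI P v // ad P v p.1 p.2} →
        {p : V × V // P.Own v p.1 ∧ P.Own v p.2 ∧ P.H.Adj p.1 p.2})
    rintro ⟨⟨p1, p2⟩, hp⟩ ⟨⟨q1, q2⟩, hq⟩ hpq
    have e := congrArg Subtype.val hpq
    simp only [Prod.mk.injEq] at e
    apply Subtype.ext
    exact Prod.ext (Subtype.ext e.1) (Subtype.ext e.2)
  rw [card_univ, Fintype.card_prod, hI] at h2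
  have h5 : (P.dg v : ℝ) * P.dg v ≤
      ((univ.filter (fun p : OI P v × OI P v => p.1 ≠ p.2 ∧ ¬ ad P v p.1 p.2)).card : ℝ) +
      ((P.dg v : ℝ) + (Nat.card {p : V × V // P.Own v p.1 ∧ P.Own v p.2 ∧ P.H.Adj p.1 p.2} : ℝ)) := by
    have : P.dg v * P.dg v ≤
      (univ.filter (fun p : OI P v × OI P v => p.1 ≠ p.2 ∧ ¬ ad P v p.1 p.2)).card +
      (P.dg v + Nat.card {p : V × V // P.Own v p.1 ∧ P.Own v p.2 ∧ P.H.Adj p.1 p.2}) :=
      h2.trans (by omega)
    exact_mod_cast this
  nlinarith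

end

end Pool.Agent.Helper16.Sey3.GP
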